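import Pool.Agent.SF49.Lin

/-!
# SF49/CompS76: proof of Comp.comp_ge (helper76)

The linear map `T (x, z) = cob sides x + z` on `(F → k) × ZN` has values in `ker (bd ends)`, and its kernel embeds into
the functions on the components of `off`.
-/

set_option autoImplicit false

namespace Pool.Agent.SF49

open Pool.Agent.DW54

theorem comp_ge76 {W E F : Type} [Fintype W] [Fintype E] [Fintype F] (M : CellMap W E F)
    (h1 : (joins M.ends).Connected) (N : Set E) (Z : Submodule (ZMod 2) (E → ZMod 2))
    (hZ : ∀ z ∈ Z, bd M.ends z = 0 ∧ ∀ e, e ∉ N → z e = 0) (H : SimpleGraph F)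
    (hH : ∀ f f', H.Adj f f' → ∃ e, e ∉ N ∧
      ((M.sides e false = f ∧ M.sides e true = f') ∨ (M.sides e false = f' ∧ M.sides e true = f))) :
    Module.finrank (ZMod 2) Z + Fintype.card W + Fintype.card F ≤
      Nat.card H.ConnectedComponent + Fintype.card E + 1 := by
  classical
  have h3 := dim_ker h1
  let T : ((F → ZMod 2) × Z) →ₗ[ZMod 2] (E → ZMod 2) := (cob M.sides).coprod Z.subtype
  have hT : ∀ p, T p = cob M.sides p.1 + p.2 := fun p => rfl
  have h4 := LinearMap.finrank_range_add_finrank_ker T
  rw [Module.finrank_prod, Module.finrank_fintype_fun_eq_card] at h4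
  have h5 : Module.finrank (ZMod 2) (LinearMap.range T) ≤
      Module.finrank (ZMod 2) (LinearMap.ker (bd M.ends)) := by
    apply Submodule.finrank_mono
    rintro _ ⟨p, rfl⟩
    rw [hT, LinearMap.mem_ker, map_add, bd_cob, (hZ p.2 p.2.2).1, add_zero]
  haveI : Fintype H.ConnectedComponent := Fintype.ofFinite _
  have h6 : Module.finrank (ZMod 2) (LinearMap.ker T) ≤ Nat.card H.ConnectedComponent := by
    rw [Nat.card_eq_fintype_card]
    let out : H.ConnectedComponent → F := fun c => c.out
    have hout : ∀ f, H.Reachable (out (H.connectedComponentMk f)) f := fun f =>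
      SimpleGraph.ConnectedComponent.exact (Quot.out_eq (H.connectedComponentMk f))
    let G : LinearMap.ker T →ₗ[ZMod 2] (H.ConnectedComponent → ZMod 2) :=
      (LinearMap.funLeft (ZMod 2) (ZMod 2) out).comp
        ((LinearMap.fst (ZMod 2) (F → ZMod 2) Z).comp (LinearMap.ker T).subtype)
    have hG : Function.Injective G := by
      rw [← LinearMap.ker_eq_bot, eq_bot_iff]
      rintro ⟨⟨x, z⟩, hp⟩ hker
      rw [LinearMap.mem_ker] at hker
      have hx0 : ∀ q, x (out q) = 0 := fun q => congrFun hker q
      rw [LinearMap.mem_ker, hT] at hp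
      have hx1 : ∀ e, e ∉ N → x (M.sides e false) = x (M.sides e true) := by
        intro e he
        have h7 : x (M.sides e false) + x (M.sides e true) + (z : E → ZMod 2) e = 0 := congrFun hp e
        rw [(hZ z z.2).2 e he, add_zero] at h7
        exact CharTwo.add_eq_zero.1 h7
      have hx2 : ∀ f f', H.Reachable f f' → x f = x f' := by
        rintro f f' ⟨w⟩
        induction w with
        | nil => rfl
        | cons hadj _ ih =>
          rw [← ih]
          obtain ⟨e, he, ⟨ha, hb⟩ | ⟨ha, hb⟩⟩ := hH _ _ hadj
          · rw [← ha, ← hb]; exact hx1 e he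
          · rw [← ha, ← hb]; exact (hx1 e he).symm
      have hx3 : x = 0 := by
        funext f
        rw [← hx2 _ _ (hout f)]
        exact hx0 _
      subst hx3
      have hz : z = 0 := by
        apply Subtype.ext
        have h7 : cob M.sides 0 + (z : E → ZMod 2) = 0 := hp
        rw [map_zero, zero_add] at h7
        exact h7
      subst hz
      rfl
    have := LinearMap.finrank_le_finrank_of_injective hG
    rwa [Module.finrank_fintype_fun_eq_card] at this
  omega

end Pool.Agent.SF49
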