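import Pool.Agent.SF49.Lin
import Pool.Agent.SF49.CompS76

/-!
# SF49/Comp: the number of faces of a subgraph of a map

`ZN`: the cycles inside `N`. `off M N`: two faces are adjacent if they are the sides of an edge outside `N`. `comp_ge`: let `K` be the space of all `x : F → ZMod 2` with `cob sides x`
zero outside `N`. Such an `x` is constant on the components of `off` (walk induction), so `finrank K ≤ card components`. The kernel of `cob sides` (constants, dimension 1: `rank_cob` for the
sides, `Module.finrank (range) + 1 = card F`) is inside `K`, so `finrank K = 1 + finrank (range (cob sides) ⊓ ZN)` (`bd_cob`: the range is inside `ker (bd ends)`), and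
`finrank (range ⊓ ZN) + finrank (ker (bd ends)) ≥ finrank range + finrank ZN` (`Submodule.finrank_sup_add_finrank_inf_eq`, the sup is inside `ker (bd ends)`). With `dim_ker`.
-/

set_option autoImplicit false

namespace Pool.Agent.SF49

open Pool.Agent.DW54

/-- The cycles inside `N`. -/
noncomputable def ZN {W E : Type} [Fintype E] (a : E → Bool → W) (N : Set E) :
    Submodule (ZMod 2) (E → ZMod 2) where
  carrier := {z | bd a z = 0 ∧ ∀ e, e ∉ N → z e = 0}
  add_mem' := by
    rintro y z ⟨h1, h2⟩ ⟨h3, h4⟩
    refine ⟨by rw [map_add, h1, h3, add_zero], fun e he => ?_⟩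
    rw [Pi.add_apply, h2 e he, h4 e he, add_zero]
  zero_mem' := ⟨map_zero _, fun _ _ => rfl⟩
  smul_mem' := by
    rintro c z ⟨h1, h2⟩
    refine ⟨by rw [map_smul, h1, smul_zero], fun e he => ?_⟩
    rw [Pi.smul_apply, h2 e he, smul_zero]

/-- Two faces are adjacent if they are the sides of an edge outside `N`. -/
def off {E F : Type} (s : E → Bool → F) (N : Set E) : SimpleGraph F :=
  SimpleGraph.fromRel fun x y => ∃ e, e ∉ N ∧ s e false = x ∧ s e true = y

theorem comp_ge {W E F : Type} [Fintype W] [Fintype E] [Fintype F] (M : CellMap W E F)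
    (h1 : (joins M.ends).Connected) (h2 : (joins M.sides).Connected) (N : Set E) :
    Module.finrank (ZMod 2) (ZN M.ends N) + Fintype.card W + Fintype.card F ≤
      Nat.card (off M.sides N).ConnectedComponent + Fintype.card E + 1 := by
  refine comp_ge76 M h1 N (ZN M.ends N) (fun z hz => hz) (off M.sides N) ?_
  rintro f f' ⟨-, ⟨e, he, ha, hb⟩ | ⟨e, he, ha, hb⟩⟩
  · exact ⟨e, he, Or.inl ⟨ha, hb⟩⟩
  · exact ⟨e, he, Or.inr ⟨ha, hb⟩⟩

end Pool.Agent.SF49
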