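import Pool.Agent.DW54.Defs

/-!
# SF49/Defs (MP_93e89b_co): graphs on surfaces, combinatorially

Paper proof: note 3635. A `CellMap`: vertices `W`, edges `E`, faces `F`; the edge `e` has the two ends `ends e false`, `ends e true` and
the two sides `sides e false`, `sides e true`; at every vertex every face occurs an even number of times.
-/

set_option autoImplicit false

namespace Pool.Agent.SF49

open Pool.Agent.DW54

/-- Vertices `W`, edges `E`, faces `F` of a decomposition of a surface: every edge has two ends and two
sides; at every vertex every face occurs an even number of times. -/
structure CellMap (W E F : Type) where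
  /-- the two ends of an edge -/
  ends : E → Bool → W
  /-- the faces on the two sides of an edge -/
  sides : E → Bool → F
  closed : ∀ v f, Even (Nat.card {x : E × Bool × Bool // ends x.1 x.2.1 = v ∧
    sides x.1 x.2.2 = f})

/-- Two different points of `X` are adjacent if they are joined by some `e`. -/
def joins {X E : Type} (a : E → Bool → X) : SimpleGraph X :=
  SimpleGraph.fromRel fun x y => ∃ e, a e false = x ∧ a e true = y

/-- `G` is a minor of the graph of a connected map with Euler genus at most `g`. -/
def EulerGenusLE {V : Type} (G : SimpleGraph V) (g : ℕ) : Prop :=
  ∃ (a b c : ℕ) (M : CellMap (Fin a) (Fin b) (Fin c)), (joins M.ends).Connected ∧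
    (joins M.sides).Connected ∧ b + 2 ≤ a + c + g ∧ IsMinor G (joins M.ends)

end Pool.Agent.SF49
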