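import Pool.Agent.DW54.Defs

/-!
# SF49/EvenB80: the number of ends which are points (proofs of `pts_sum`, `pts_ge` for SF49/Even)
-/

set_option autoImplicit false

namespace Pool.Agent.SF49.EvenB80

open Finset Pool.Agent.DW54

variable {p : ℕ} {T : Set (Finset (Fin p))}

open Classical in
/-- The points which are not in a common triangle with `i`. -/
noncomputable def NN (T : Set (Finset (Fin p))) (i : Fin p) : Finset (Fin p) :=
  univ.filter (fun j => i ≠ j ∧ ∀ t ∈ T, ¬ (i ∈ t ∧ j ∈ t))

open Classical in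
/-- The triangles at `i`. -/
noncomputable def HH (T : Set (Finset (Fin p))) [Fintype T] (i : Fin p) : Finset T :=
  univ.filter (fun t => i ∈ t.1)

/-- The points seen from `i`. -/
lemma count (hT : EdgeDisj T) [Fintype T] (i : Fin p) :
    (NN T i).card + 2 * (HH T i).card = p - 1 := by
  classical
  have hC : (univ.filter (fun j => i ≠ j ∧ ∃ t ∈ T, i ∈ t ∧ j ∈ t)) =
      (HH T i).biUnion (fun t => t.1.erase i) := by
    ext j
    simp only [mem_filter, mem_univ, true_and, mem_biUnion, HH, mem_erase]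
    constructor
    · rintro ⟨h1, t, ht, h2, h3⟩
      exact ⟨⟨t, ht⟩, h2, fun h => h1 h.symm, h3⟩
    · rintro ⟨t, h1, h2, h3⟩
      exact ⟨fun h => h2 h.symm, t.1, t.2, h1, h3⟩
  have hcard : (univ.filter (fun j => i ≠ j ∧ ∃ t ∈ T, i ∈ t ∧ j ∈ t)).card =
      2 * (HH T i).card := by
    rw [hC, card_biUnion]
    · have : ∀ t ∈ HH T i, (t.1.erase i).card = 2 := by
        intro t ht
        rw [HH, mem_filter] at ht
        rw [card_erase_of_mem ht.2, hT.1 t.1 t.2]
      rw [sum_congr rfl this, sum_const, smul_eq_mul, mul_comm]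
    · intro s hs t ht hst
      rw [HH, mem_coe, mem_filter] at hs ht
      rw [Function.onFun, disjoint_left]
      intro j hj1 hj2
      rw [mem_erase] at hj1 hj2
      exact hst (Subtype.ext (hT.2 s.1 s.2 t.1 t.2 i hs.2 j hj1.2 hj1.1.symm ht.2 hj2.2))
  have hadd : (NN T i).card + (univ.filter (fun j => i ≠ j ∧ ∃ t ∈ T, i ∈ t ∧ j ∈ t)).card =
      (univ.erase i).card := by
    rw [← card_union_of_disjoint]
    · congr 1
      ext j
      simp only [NN, mem_union, mem_filter, mem_univ, true_and, mem_erase, and_true]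
      constructor
      · rintro (h | h)
        · exact fun h' => h.1 h'.symm
        · exact fun h' => h.1 h'.symm
      · intro h
        by_cases h2 : ∃ t ∈ T, i ∈ t ∧ j ∈ t
        · exact Or.inr ⟨fun h' => h h'.symm, h2⟩
        · refine Or.inl ⟨fun h' => h h'.symm, fun t ht h3 => h2 ⟨t, ht, h3⟩⟩
    · rw [disjoint_left]
      intro j hj1 hj2
      simp only [NN, mem_filter] at hj1 hj2
      obtain ⟨t, ht, h⟩ := hj2.2.2
      exact hj1.2.2 t ht h
  rw [hcard] at hadd
  rw [hadd, card_erase_of_mem (mem_univ _), card_univ, Fintype.card_fin]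

/-- The degree of a point. -/
lemma deg [Fintype (deltaWye p T).edgeSet] [Fintype T] (i : Fin p)
    [DecidablePred (fun h : (deltaWye p T).edgeSet => (Sum.inl i : Fin p ⊕ T) ∈ h.1)] :
    (univ.filter (fun h : (deltaWye p T).edgeSet => (Sum.inl i : Fin p ⊕ T) ∈ h.1)).card =
      (NN T i).card + (HH T i).card := by
  classical
  rw [← card_disjSum]
  symm
  have hadj : ∀ v ∈ (NN T i).disjSum (HH T i), (deltaWye p T).Adj (Sum.inl i) v := by
    intro v hv
    rw [mem_disjSum] at hv
    rcases hv with ⟨j, hj, rfl⟩ | ⟨t, ht, rfl⟩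
    · rw [NN, mem_filter] at hj
      exact hj.2
    · rw [HH, mem_filter] at ht
      exact ht.2
  refine card_bij (fun v hv => ⟨s(Sum.inl i, v), hadj v hv⟩) ?_ ?_ ?_
  · intro v hv
    rw [mem_filter]
    exact ⟨mem_univ _, Sym2.mem_mk_left _ _⟩
  · intro v hv w hw h
    have := congrArg Subtype.val h
    exact Sym2.congr_right.mp this
  · rintro ⟨h, hh⟩ hm
    rw [mem_filter] at hm
    obtain ⟨v, hv⟩ := Sym2.mem_iff_exists.mp hm.2
    simp only at hv
    subst hv
    have ha : (deltaWye p T).Adj (Sum.inl i) v := hh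
    refine ⟨v, ?_, rfl⟩
    rw [mem_disjSum]
    rcases v with j | t
    · refine Or.inl ⟨j, ?_, rfl⟩
      rw [NN, mem_filter]
      exact ⟨mem_univ _, ha⟩
    · refine Or.inr ⟨t, ?_, rfl⟩
      rw [HH, mem_filter]
      exact ⟨mem_univ _, ha⟩

lemma sum_HH (hT : EdgeDisj T) [Fintype T] : ∑ i, (HH T i).card = 3 * Fintype.card T := by
  classical
  have h1 : ∑ i, (HH T i).card = ∑ i : Fin p, ∑ t : T, (if i ∈ t.1 then 1 else 0) := by
    refine sum_congr rfl fun i _ => ?_
    rw [HH, card_filter]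
  rw [h1, sum_comm]
  have h2 : ∀ t : T, ∑ i : Fin p, (if i ∈ t.1 then 1 else 0) = 3 := by
    intro t
    rw [← card_filter, filter_mem_eq_inter, univ_inter]
    exact hT.1 t.1 t.2
  rw [sum_congr rfl (fun t _ => h2 t), sum_const, smul_eq_mul, card_univ, mul_comm]

open Classical in
lemma sum_eq (P : Sym2 (Fin p ⊕ T) → ℕ)
    (hP : ∀ h, P h = (univ.filter fun i : Fin p => (Sum.inl i : Fin p ⊕ T) ∈ h).card)
    [Fintype (deltaWye p T).edgeSet] [Fintype T] :
    ∑ h : (deltaWye p T).edgeSet, P h.1 = ∑ i, ((NN T i).card + (HH T i).card) := by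
  simp only [hP, card_filter]
  rw [sum_comm]
  refine sum_congr rfl fun i _ => ?_
  rw [← card_filter, deg]

open Classical in
theorem pts_sum_of (P : Sym2 (Fin p ⊕ T) → ℕ)
    (hP : ∀ h, P h = (univ.filter fun i : Fin p => (Sum.inl i : Fin p ⊕ T) ∈ h).card)
    (hT : EdgeDisj T) [Fintype (deltaWye p T).edgeSet] [Fintype T] :
    ∑ h : (deltaWye p T).edgeSet, P h.1 + 3 * Fintype.card T = p * (p - 1) := by
  rw [sum_eq P hP, ← sum_HH hT, ← sum_add_distrib]
  have : ∀ i ∈ (univ : Finset (Fin p)),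
      (NN T i).card + (HH T i).card + (HH T i).card = p - 1 := by
    intro i _
    have := count hT i
    omega
  rw [sum_congr rfl this, sum_const, smul_eq_mul, card_univ, Fintype.card_fin]

open Classical in
theorem pts_ge_of (P : Sym2 (Fin p ⊕ T) → ℕ)
    (hP : ∀ h, P h = (univ.filter fun i : Fin p => (Sum.inl i : Fin p ⊕ T) ∈ h).card)
    (hT : EdgeDisj T) (hp : 3 ≤ p) [Fintype (deltaWye p T).edgeSet] :
    3 ≤ ∑ h : (deltaWye p T).edgeSet, P h.1 := by
  have : Fintype T := Fintype.ofFinite T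
  rw [sum_eq P hP]
  calc 3 ≤ p := hp
    _ = ∑ _i : Fin p, 1 := by simp
    _ ≤ ∑ i, ((NN T i).card + (HH T i).card) := by
        refine sum_le_sum fun i _ => ?_
        have := count hT i
        omega

end Pool.Agent.SF49.EvenB80
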