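import Pool.Agent.DW54.Defs
import Pool.Agent.SF49.EvenB80

/-!
# SF49/EdgeS92: the number of edges (proof of `edge_card` for SF49/Even)
-/

set_option autoImplicit false

namespace Pool.Agent.SF49

open Finset Pool.Agent.DW54

variable {p : ℕ} {T : Set (Finset (Fin p))}

/-- every edge has two ends -/
theorem ends92 [Fintype T] [DecidableEq (Fin p ⊕ T)] (h : (deltaWye p T).edgeSet) :
    (univ.filter (fun v : Fin p ⊕ T => v ∈ h.1)).card = 2 := by
  obtain ⟨e, he⟩ := h
  induction e using Sym2.inductionOn with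
  | _ a b =>
    have hab : a ≠ b := (show (deltaWye p T).Adj a b from he).ne
    have : (univ.filter (fun v : Fin p ⊕ T => v ∈ s(a, b))) = {a, b} := by
      ext v
      simp [Sym2.mem_iff]
    simp only
    rw [this, card_pair hab]

/-- every hub is the end of three edges -/
theorem hub92 (hT : EdgeDisj T) [Fintype (deltaWye p T).edgeSet] (t : T)
    [DecidablePred (fun h : (deltaWye p T).edgeSet => (Sum.inr t : Fin p ⊕ T) ∈ h.1)] :
    (univ.filter (fun h : (deltaWye p T).edgeSet => (Sum.inr t : Fin p ⊕ T) ∈ h.1)).card = 3 := by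
  classical
  rw [← hT.1 t.1 t.2]
  symm
  have hadj : ∀ i ∈ t.1, (deltaWye p T).Adj (Sum.inr t) (Sum.inl i) := fun i hi => hi
  refine card_bij (fun i hi => ⟨s(Sum.inr t, Sum.inl i), hadj i hi⟩) ?_ ?_ ?_
  · intro i hi
    rw [mem_filter]
    exact ⟨mem_univ _, Sym2.mem_mk_left _ _⟩
  · intro i hi k hk h
    have := congrArg Subtype.val h
    exact Sum.inl_injective (Sym2.congr_right.mp this)
  · rintro ⟨h, hh⟩ hm
    rw [mem_filter] at hm
    obtain ⟨v, hv⟩ := Sym2.mem_iff_exists.mp hm.2
    simp only at hv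
    subst hv
    have ha : (deltaWye p T).Adj (Sum.inr t) v := hh
    rcases v with j | s
    · exact ⟨j, ha, rfl⟩
    · exact absurd ha (fun h' => h')

theorem edge_card92 (hT : EdgeDisj T) [Fintype (deltaWye p T).edgeSet] :
    2 * Fintype.card (deltaWye p T).edgeSet = p * (p - 1) := by
  classical
  have : Fintype T := Fintype.ofFinite T
  rw [← EvenB80.pts_sum_of
    (fun h => (univ.filter fun i : Fin p => (Sum.inl i : Fin p ⊕ T) ∈ h).card)
    (fun h => by congr) hT]
  have h1 : ∀ h : (deltaWye p T).edgeSet,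
      (univ.filter fun i : Fin p => (Sum.inl i : Fin p ⊕ T) ∈ h.1).card +
        (univ.filter fun t : T => (Sum.inr t : Fin p ⊕ T) ∈ h.1).card = 2 := by
    intro h
    have h2 := ends92 h
    rw [card_filter, Fintype.sum_sum_type] at h2
    rw [card_filter, card_filter]
    exact h2
  have h3 : ∑ h : (deltaWye p T).edgeSet,
      (univ.filter fun t : T => (Sum.inr t : Fin p ⊕ T) ∈ h.1).card = 3 * Fintype.card T := by
    simp only [card_filter]
    rw [sum_comm]
    have h4 : ∀ t : T, ∑ h : (deltaWye p T).edgeSet,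
        (if (Sum.inr t : Fin p ⊕ T) ∈ h.1 then 1 else 0) = 3 := by
      intro t
      rw [← card_filter, hub92 hT t]
    rw [sum_congr rfl (fun t _ => h4 t), sum_const, smul_eq_mul, card_univ, mul_comm]
  have h5 : ∑ h : (deltaWye p T).edgeSet,
      ((univ.filter fun i : Fin p => (Sum.inl i : Fin p ⊕ T) ∈ h.1).card +
        (univ.filter fun t : T => (Sum.inr t : Fin p ⊕ T) ∈ h.1).card) =
      2 * Fintype.card (deltaWye p T).edgeSet := by
    rw [sum_congr rfl (fun h _ => h1 h), sum_const, smul_eq_mul, card_univ, mul_comm]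
  rw [← h5, sum_add_distrib, h3]

end Pool.Agent.SF49
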