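import Pool.Agent.DW54.Defs

/-!
# SF49/EvenS74: an even set of edges of a Delta-Wye graph touches at least three points (helper74)
-/

set_option autoImplicit false

namespace Pool.Agent.SF49

open Pool.Agent.DW54

variable {p : ℕ} {T : Set (Finset (Fin p))}

/-- a second edge of the even set at the vertex `u` -/
theorem second74 [Fintype (deltaWye p T).edgeSet] [DecidableEq (Fin p ⊕ T)]
    (z : (deltaWye p T).edgeSet → ZMod 2)
    (hz : ∀ u, ∑ h : (deltaWye p T).edgeSet, (if u ∈ h.1 then z h else 0) = 0)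
    (u : Fin p ⊕ T) (h : (deltaWye p T).edgeSet) (h1 : z h ≠ 0) (h2 : u ∈ h.1) :
    ∃ h', h' ≠ h ∧ z h' ≠ 0 ∧ u ∈ h'.1 := by
  by_contra hno
  push Not at hno
  have h3 := hz u
  rw [Finset.sum_eq_single h] at h3
  · rw [if_pos h2] at h3
    exact h1 h3
  · intro h' _ hne
    by_cases h4 : z h' = 0
    · rw [h4]
      exact ite_self _
    · exact if_neg (hno h' hne h4)
  · intro h4
    exact absurd (Finset.mem_univ h) h4

/-- an edge of the even set at the point `i` leads to another point -/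
theorem reach74 [Fintype (deltaWye p T).edgeSet] [DecidableEq (Fin p ⊕ T)]
    (z : (deltaWye p T).edgeSet → ZMod 2)
    (hz : ∀ u, ∑ h : (deltaWye p T).edgeSet, (if u ∈ h.1 then z h else 0) = 0)
    (i : Fin p) (h : (deltaWye p T).edgeSet) (h1 : z h ≠ 0) (h2 : Sum.inl i ∈ h.1) :
    ∃ r : Fin p, r ≠ i ∧ (∃ h', z h' ≠ 0 ∧ Sum.inl r ∈ h'.1) ∧
      (h.1 = s(Sum.inl i, Sum.inl r) ∨ ∃ t : T, h.1 = s(Sum.inl i, Sum.inr t) ∧ r ∈ t.1) := by
  obtain ⟨u, hu⟩ := Sym2.mem_iff_exists.1 h2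
  have hadj : (deltaWye p T).Adj (Sum.inl i) u := by
    have h3 := h.2
    rw [hu] at h3
    exact h3
  rcases u with j | t
  · have h3 : i ≠ j := hadj.1
    refine ⟨j, h3.symm, ⟨h, h1, ?_⟩, Or.inl hu⟩
    rw [hu]
    exact Sym2.mem_mk_right _ _
  · obtain ⟨h', hne, hz', hm⟩ := second74 z hz (Sum.inr t) h h1 (by
      rw [hu]
      exact Sym2.mem_mk_right _ _)
    obtain ⟨v, hv⟩ := Sym2.mem_iff_exists.1 hm
    have hadj' : (deltaWye p T).Adj (Sum.inr t) v := by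
      have h3 := h'.2
      rw [hv] at h3
      exact h3
    rcases v with k | s
    · have hk : k ∈ t.1 := hadj'
      refine ⟨k, ?_, ⟨h', hz', ?_⟩, Or.inr ⟨t, hu, hk⟩⟩
      · intro e
        apply hne
        apply Subtype.ext
        rw [hv, hu, e]
        exact Sym2.eq_swap
      · rw [hv]
        exact Sym2.mem_mk_right _ _
    · exact absurd hadj' (fun h' => h')

theorem even_ge74 (pts : Sym2 (Fin p ⊕ T) → ℕ)
    (hpts : ∀ h, ∀ S : Finset (Fin p), (∀ i, i ∈ S ↔ (Sum.inl i : Fin p ⊕ T) ∈ h) →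
      pts h = S.card)
    (hT : EdgeDisj T) [Fintype (deltaWye p T).edgeSet] [DecidableEq (Fin p ⊕ T)]
    (z : (deltaWye p T).edgeSet → ZMod 2)
    (hz : ∀ u, ∑ h : (deltaWye p T).edgeSet, (if u ∈ h.1 then z h else 0) = 0)
    (hne : ∃ h, z h ≠ 0) :
    6 ≤ ∑ h : (deltaWye p T).edgeSet, (if z h ≠ 0 then pts h.1 else 0) := by
  classical
  have hsum : ∑ h : (deltaWye p T).edgeSet, (if z h ≠ 0 then pts h.1 else 0) =
      ∑ i : Fin p, (Finset.univ.filter fun h : (deltaWye p T).edgeSet =>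
        z h ≠ 0 ∧ Sum.inl i ∈ h.1).card := by
    have e1 : ∀ h : (deltaWye p T).edgeSet, (if z h ≠ 0 then pts h.1 else 0) =
        ∑ i : Fin p, (if z h ≠ 0 ∧ Sum.inl i ∈ h.1 then 1 else 0) := by
      intro h
      by_cases h1 : z h ≠ 0
      · rw [if_pos h1, hpts h.1 (Finset.univ.filter fun i => (Sum.inl i : Fin p ⊕ T) ∈ h.1)
          (fun i => by simp), Finset.card_filter]
        exact Finset.sum_congr rfl fun i _ => by simp [h1]
      · rw [if_neg h1]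
        symm
        exact Finset.sum_eq_zero fun i _ => if_neg (fun h' => h1 h'.1)
    rw [Finset.sum_congr rfl fun h _ => e1 h, Finset.sum_comm]
    exact Finset.sum_congr rfl fun i _ => (Finset.card_filter _ _).symm
  have hdeg : ∀ i : Fin p, (∃ h', z h' ≠ 0 ∧ Sum.inl i ∈ h'.1) →
      2 ≤ (Finset.univ.filter fun h : (deltaWye p T).edgeSet =>
        z h ≠ 0 ∧ Sum.inl i ∈ h.1).card := by
    rintro i ⟨h, h1, h2⟩
    obtain ⟨h', h3, h4, h5⟩ := second74 z hz (Sum.inl i) h h1 h2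
    exact Finset.one_lt_card.2 ⟨h, by simp [h1, h2], h', by simp [h4, h5], fun e => h3 e.symm⟩
  obtain ⟨h0, hz0⟩ := hne
  obtain ⟨i, hi⟩ : ∃ i : Fin p, Sum.inl i ∈ h0.1 := by
    obtain ⟨e, he⟩ := h0
    induction e using Sym2.ind with
    | _ a b =>
      have hadj : (deltaWye p T).Adj a b := he
      rcases a with i | t
      · exact ⟨i, Sym2.mem_mk_left _ _⟩
      · rcases b with j | s
        · exact ⟨j, Sym2.mem_mk_right _ _⟩
        · exact absurd hadj (fun h' => h')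
  obtain ⟨h1, hne1, hz1, hi1⟩ := second74 z hz (Sum.inl i) h0 hz0 hi
  obtain ⟨r0, hr0, ht0, hc0⟩ := reach74 z hz i h0 hz0 hi
  obtain ⟨r1, hr1, ht1, hc1⟩ := reach74 z hz i h1 hz1 hi1
  have hrr : r0 ≠ r1 := by
    intro e
    subst e
    have hadj0 : h0.1 ∈ (deltaWye p T).edgeSet := h0.2
    have hadj1 : h1.1 ∈ (deltaWye p T).edgeSet := h1.2
    rcases hc0 with hc0 | ⟨t0, hc0, hm0⟩ <;> rcases hc1 with hc1 | ⟨t1, hc1, hm1⟩
    · exact hne1 (Subtype.ext (hc1.trans hc0.symm))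
    · rw [hc0] at hadj0
      rw [hc1] at hadj1
      have a0 : i ≠ r0 ∧ ∀ t ∈ T, ¬ (i ∈ t ∧ r0 ∈ t) := hadj0
      have a1 : i ∈ t1.1 := hadj1
      exact a0.2 t1.1 t1.2 ⟨a1, hm1⟩
    · rw [hc0] at hadj0
      rw [hc1] at hadj1
      have a0 : i ≠ r0 ∧ ∀ t ∈ T, ¬ (i ∈ t ∧ r0 ∈ t) := hadj1
      have a1 : i ∈ t0.1 := hadj0
      exact a0.2 t0.1 t0.2 ⟨a1, hm0⟩
    · rw [hc0] at hadj0
      rw [hc1] at hadj1
      have a0 : i ∈ t0.1 := hadj0
      have a1 : i ∈ t1.1 := hadj1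
      have h3 := hT.2 t0.1 t0.2 t1.1 t1.2 i a0 r0 hm0 hr0.symm a1 hm1
      have h4 : t0 = t1 := Subtype.ext h3
      apply hne1
      apply Subtype.ext
      rw [hc1, hc0, h4]
  rw [hsum]
  have hsub : ∑ j ∈ ({i, r0, r1} : Finset (Fin p)),
      (Finset.univ.filter fun h : (deltaWye p T).edgeSet => z h ≠ 0 ∧ Sum.inl j ∈ h.1).card ≤
      ∑ j : Fin p, (Finset.univ.filter fun h : (deltaWye p T).edgeSet =>
        z h ≠ 0 ∧ Sum.inl j ∈ h.1).card :=
    Finset.sum_le_sum_of_subset (Finset.subset_univ _)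
  rw [Finset.sum_insert (by simp [hr0.symm, hr1.symm]), Finset.sum_insert (by simp [hrr]),
    Finset.sum_singleton] at hsub
  have d0 := hdeg i ⟨h0, hz0, hi⟩
  have d1 := hdeg r0 ht0
  have d2 := hdeg r1 ht1
  omega

end Pool.Agent.SF49
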