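import Pool.Agent.DW54.Defs
import Pool.Agent.SF49.EvenB80
import Pool.Agent.SF49.EvenS74
import Pool.Agent.SF49.EdgeS92

/-!
# SF49/Even: even sets of edges of a Delta-Wye graph

`pts h`: the number of ends of `h` which are points (2 for an edge between points, 1 for an edge at a hub). `even_ge`: the sum is the sum over the points `i` of the degree of `i` in
`{h | z h ≠ 0}`; every degree is even; so it is at least twice the number of touched points. At least three points are touched: some edge is in the set, every edge has a point `i` as an end; `i`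
has a second edge in the set; if a neighbour is a hub `t`, `t` has a second edge in the set, to another point `k ∈ t`. The cases point/point, point `j`/hub (`j ∉ t`, because `i j` is an edge), hub/hub
(`t ∩ t' = {i}`) give three different points. `pts_sum`: the degree of the point `i` is `p - 1 - t_i`, `t_i` the number of the `t ∈ T` with `i ∈ t`. `edge_card`: `twice the number of edges is the
sum of all degrees`, the degree of a hub is 3.
-/

set_option autoImplicit false

namespace Pool.Agent.SF49

open Pool.Agent.DW54

variable {p : ℕ} {T : Set (Finset (Fin p))}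

open Classical in
/-- The number of points at the edge `h`. -/
noncomputable def pts (h : Sym2 (Fin p ⊕ T)) : ℕ :=
  (Finset.univ.filter fun i : Fin p => (Sum.inl i : Fin p ⊕ T) ∈ h).card

theorem even_ge (hT : EdgeDisj T) [Fintype (deltaWye p T).edgeSet] [DecidableEq (Fin p ⊕ T)]
    (z : (deltaWye p T).edgeSet → ZMod 2)
    (hz : ∀ u, ∑ h : (deltaWye p T).edgeSet, (if u ∈ h.1 then z h else 0) = 0)
    (hne : ∃ h, z h ≠ 0) :
    6 ≤ ∑ h : (deltaWye p T).edgeSet, (if z h ≠ 0 then pts h.1 else 0) := by
  refine even_ge74 pts ?_ hT z hz hne
  intro h S hS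
  unfold pts
  congr 1
  ext i
  simp [hS]

theorem pts_sum (hT : EdgeDisj T) [Fintype (deltaWye p T).edgeSet] [Fintype T] :
    ∑ h : (deltaWye p T).edgeSet, pts h.1 + 3 * Fintype.card T = p * (p - 1) := by
  exact EvenB80.pts_sum_of pts (fun _ => rfl) hT

theorem edge_card (hT : EdgeDisj T) [Fintype (deltaWye p T).edgeSet] :
    2 * Fintype.card (deltaWye p T).edgeSet = p * (p - 1) := by
  exact edge_card92 hT

theorem pts_ge (hT : EdgeDisj T) (hp : 3 ≤ p) [Fintype (deltaWye p T).edgeSet] :
    3 ≤ ∑ h : (deltaWye p T).edgeSet, pts h.1 := by
  exact EvenB80.pts_ge_of pts (fun _ => rfl) hT hp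

end Pool.Agent.SF49
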