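import Pool.Agent.SF49.Defs

/-!
# SF49/LinS82: the kernel and the rank of the coboundary

Stated for an arbitrary linear map with the values of `cob a` (so that no definition has to be shared).
-/

set_option autoImplicit false

namespace Pool.Agent.SF49.LinS82

open Pool.Agent.DW54

theorem const_of {X E : Type} {a : E → Bool → X} (hc : (joins a).Connected)
    {y : X → ZMod 2} (hy : ∀ e, y (a e false) + y (a e true) = 0) (v w : X) : y v = y w := by
  have hadj : ∀ x x', (joins a).Adj x x' → y x = y x' := by
    intro x x' h
    unfold joins at h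
    rw [SimpleGraph.fromRel_adj] at h
    obtain ⟨_, ⟨e, h1, h2⟩ | ⟨e, h1, h2⟩⟩ := h
    · have h3 := hy e
      rw [h1, h2] at h3
      exact CharTwo.add_eq_zero.1 h3
    · have h3 := hy e
      rw [h1, h2] at h3
      exact (CharTwo.add_eq_zero.1 h3).symm
  obtain ⟨p⟩ := hc.preconnected v w
  induction p with
  | nil => rfl
  | cons h _ ih => exact (hadj _ _ h).trans ih

theorem rank_of {X E : Type} [Fintype X] [Fintype E] {a : E → Bool → X}
    (hc : (joins a).Connected) (c : (X → ZMod 2) →ₗ[ZMod 2] (E → ZMod 2))
    (hcob : ∀ y e, c y e = y (a e false) + y (a e true)) :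
    Module.finrank (ZMod 2) (LinearMap.range c) + 1 = Fintype.card X := by
  classical
  obtain ⟨x0⟩ := hc.nonempty
  have h1 := LinearMap.finrank_range_add_finrank_ker c
  rw [Module.finrank_fintype_fun_eq_card] at h1
  have hone : (fun _ : X => (1 : ZMod 2)) ∈ LinearMap.ker c := by
    rw [LinearMap.mem_ker]
    funext e
    rw [hcob]
    exact CharTwo.add_self_eq_zero 1
  have h2 : Module.finrank (ZMod 2) (LinearMap.ker c) = 1 := by
    refine (finrank_eq_one_iff_of_nonzero' (⟨_, hone⟩ : LinearMap.ker c) ?_).2 ?_
    · intro h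
      have h3 := congrFun (congrArg Subtype.val h) x0
      exact one_ne_zero h3
    · rintro ⟨w, hw⟩
      rw [LinearMap.mem_ker] at hw
      refine ⟨w x0, ?_⟩
      apply Subtype.ext
      funext x
      change w x0 * 1 = w x
      rw [mul_one]
      exact const_of hc (fun e => by rw [← hcob, hw]; rfl) x0 x
  omega

end Pool.Agent.SF49.LinS82
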