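import Pool.Agent.SF49.Defs
import Pool.Agent.SF49.LinS82

/-!
# SF49/Lin: cycle spaces over `ZMod 2`

`pair`: exchange of sums. `rank_bd`: `bd a` and `cob a` are transposed matrices (`Matrix.rank_transpose`), or: `pair` gives that the
annihilator of `range (bd a)` is `ker (cob a)`. `ker_cob`: a function with `y x = y x'` for adjacent `x`, `x'` of a connected graph is constant (walk
induction), in `ZMod 2` `a + b = 0` iff `a = b`. `rank_cob`, `dim_ker`: rank-nullity (`LinearMap.finrank_range_add_finrank_ker`). `bd_cob`: the coefficient at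
`v` is the sum over `f` of `x f` times the number in `closed`.
-/

set_option autoImplicit false

namespace Pool.Agent.SF49

open Pool.Agent.DW54

/-- `y ↦ (e ↦ y(first end) + y(second end))`. -/
def cob {X E : Type} (a : E → Bool → X) : (X → ZMod 2) →ₗ[ZMod 2] (E → ZMod 2) where
  toFun y := fun e => y (a e false) + y (a e true)
  map_add' y z := by funext e; simp only [Pi.add_apply]; ring
  map_smul' c y := by funext e; simp only [Pi.smul_apply, smul_eq_mul, RingHom.id_apply]; ring

open Classical in
/-- The sum of `z` over the edge ends at a point. -/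
noncomputable def bd {X E : Type} [Fintype E] (a : E → Bool → X) :
    (E → ZMod 2) →ₗ[ZMod 2] (X → ZMod 2) where
  toFun z := fun v => ∑ e, z e * ((if a e false = v then 1 else 0) + (if a e true = v then 1 else 0))
  map_add' y z := by
    funext v; simp only [Pi.add_apply, add_mul, Finset.sum_add_distrib]
  map_smul' c y := by
    funext v
    simp only [Pi.smul_apply, smul_eq_mul, RingHom.id_apply, Finset.mul_sum]
    exact Finset.sum_congr rfl fun e _ => by ring

theorem pair {X E : Type} [Fintype X] [Fintype E] (a : E → Bool → X) (y : X → ZMod 2)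
    (z : E → ZMod 2) : ∑ v, y v * bd a z v = ∑ e, cob a y e * z e := by
  classical
  have h1 : ∀ v, y v * bd a z v = ∑ e, y v * (z e * ((if a e false = v then 1 else 0) +
      (if a e true = v then 1 else 0))) := by
    intro v
    rw [← Finset.mul_sum]
    congr 1
  rw [Finset.sum_congr rfl fun v _ => h1 v, Finset.sum_comm]
  refine Finset.sum_congr rfl fun e _ => ?_
  have h2 : ∀ v, y v * (z e * ((if a e false = v then (1 : ZMod 2) else 0) +
      (if a e true = v then 1 else 0))) = (if a e false = v then y v * z e else 0) +
      (if a e true = v then y v * z e else 0) := by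
    intro v
    split_ifs <;> ring
  rw [Finset.sum_congr rfl fun v _ => h2 v, Finset.sum_add_distrib, Finset.sum_ite_eq,
    Finset.sum_ite_eq, if_pos (Finset.mem_univ _), if_pos (Finset.mem_univ _)]
  show _ = (y (a e false) + y (a e true)) * z e
  ring

theorem cob_const {X E : Type} {a : E → Bool → X} (hc : (joins a).Connected)
    {y : X → ZMod 2} (hy : cob a y = 0) (v w : X) : y v = y w := by
  exact LinS82.const_of hc (fun e => congrFun hy e) v w

theorem rank_cob {X E : Type} [Fintype X] [Fintype E] {a : E → Bool → X}
    (hc : (joins a).Connected) :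
    Module.finrank (ZMod 2) (LinearMap.range (cob a)) + 1 = Fintype.card X := by
  exact LinS82.rank_of hc (cob a) (fun _ _ => rfl)

open Classical in
/-- the matrix of `cob` -/
noncomputable def mat {X E : Type} (a : E → Bool → X) : Matrix E X (ZMod 2) :=
  fun e v => (if a e false = v then 1 else 0) + (if a e true = v then 1 else 0)

theorem cob_eq {X E : Type} [Fintype X] (a : E → Bool → X) : cob a = (mat a).mulVecLin := by
  classical
  refine LinearMap.ext fun y => ?_
  funext e
  rw [Matrix.mulVecLin_apply, Matrix.mulVec, dotProduct]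
  show y (a e false) + y (a e true) = ∑ v, mat a e v * y v
  have h : ∀ v, mat a e v * y v = (if a e false = v then y v else 0) +
      (if a e true = v then y v else 0) := by
    intro v
    unfold mat
    split_ifs <;> ring
  rw [Finset.sum_congr rfl fun v _ => h v, Finset.sum_add_distrib, Finset.sum_ite_eq,
    Finset.sum_ite_eq, if_pos (Finset.mem_univ _), if_pos (Finset.mem_univ _)]

theorem bd_eq {X E : Type} [Fintype E] (a : E → Bool → X) :
    bd a = (mat a).transpose.mulVecLin := by
  refine LinearMap.ext fun z => ?_
  funext v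
  rw [Matrix.mulVecLin_apply, Matrix.mulVec, dotProduct]
  show ∑ e, z e * _ = ∑ e, mat a e v * z e
  exact Finset.sum_congr rfl fun e _ => mul_comm _ _

theorem rank_bd {X E : Type} [Fintype X] [Fintype E] (a : E → Bool → X) :
    Module.finrank (ZMod 2) (LinearMap.range (bd a)) =
      Module.finrank (ZMod 2) (LinearMap.range (cob a)) := by
  rw [bd_eq, cob_eq]
  exact Matrix.rank_transpose (mat a)

theorem dim_ker {X E : Type} [Fintype X] [Fintype E] {a : E → Bool → X}
    (hc : (joins a).Connected) :
    Module.finrank (ZMod 2) (LinearMap.ker (bd a)) + Fintype.card X = Fintype.card E + 1 := by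
  have h1 := LinearMap.finrank_range_add_finrank_ker (bd a)
  have h2 := rank_bd a
  have h3 := rank_cob hc
  rw [Module.finrank_fintype_fun_eq_card] at h1
  omega

theorem bd_cob {W E F : Type} [Fintype W] [Fintype E] [Fintype F] (M : CellMap W E F)
    (x : F → ZMod 2) : bd M.ends (cob M.sides x) = 0 := by
  classical
  funext v
  have h1 : bd M.ends (cob M.sides x) v = ∑ t : E × Bool × Bool,
      x (M.sides t.1 t.2.2) * (if M.ends t.1 t.2.1 = v then 1 else 0) := by
    rw [Fintype.sum_prod_type]
    show ∑ e, _ = _
    refine Finset.sum_congr rfl fun e _ => ?_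
    rw [Fintype.sum_prod_type]
    simp only [Fintype.sum_bool]
    show (x (M.sides e false) + x (M.sides e true)) * _ = _
    split_ifs <;> ring
  have h2 : ∀ t : E × Bool × Bool,
      x (M.sides t.1 t.2.2) * (if M.ends t.1 t.2.1 = v then (1 : ZMod 2) else 0) =
      ∑ f, x f * (if M.ends t.1 t.2.1 = v ∧ M.sides t.1 t.2.2 = f then 1 else 0) := by
    intro t
    rw [Finset.sum_eq_single (M.sides t.1 t.2.2)]
    · by_cases h : M.ends t.1 t.2.1 = v
      · rw [if_pos h, if_pos ⟨h, rfl⟩]
      · rw [if_neg h, if_neg fun h' => h h'.1]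
    · intro f _ hf
      rw [if_neg fun h' => hf h'.2.symm, mul_zero]
    · intro h
      exact absurd (Finset.mem_univ _) h
  rw [h1, Finset.sum_congr rfl fun t _ => h2 t, Finset.sum_comm, Pi.zero_apply]
  refine Finset.sum_eq_zero fun f _ => ?_
  rw [← Finset.mul_sum, Finset.sum_boole]
  have h3 := M.closed v f
  rw [Nat.card_eq_fintype_card, Fintype.card_subtype] at h3
  have h4 : (((Finset.univ.filter fun t : E × Bool × Bool => M.ends t.1 t.2.1 = v ∧
      M.sides t.1 t.2.2 = f).card : ℕ) : ZMod 2) = 0 :=
    (ZMod.natCast_eq_zero_iff_even).2 h3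
  rw [h4, mul_zero]

end Pool.Agent.SF49
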