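import Pool.Agent.SF49.Upper
import Pool.Agent.SF49.Even
import Pool.Agent.DW54.Main

/-!
# SF49/Main: assembly

`genus_ge`: (4) of note 3635. `IsMinor.trans` from DW54/Wye.
-/

set_option autoImplicit false

namespace Pool.Agent.SF49

open Pool.Agent.DW54 Pool.Agent.HR54

theorem genus_ge {p g : ℕ} (hp : 5 ≤ p) {T : Set (Finset (Fin p))} (hT : EdgeDisj T)
    (h : EulerGenusLE (deltaWye p T) g) : (p - 3) * (p - 4) ≤ 6 * g := by
  classical
  obtain ⟨a, b, c, M, h1, h2, h3, hm⟩ := h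
  haveI : Fintype T := Fintype.ofFinite T
  haveI : Fintype (deltaWye p T).edgeSet := Fintype.ofFinite _
  haveI : Nonempty (Fin p ⊕ T) := ⟨Sum.inl ⟨0, by omega⟩⟩
  obtain ⟨N, sel, hM⟩ := exists_model M.ends (deltaWye p T) hm
  have k1 := comp_ge M h1 h2 N
  have k2 := upper M h2 (deltaWye p T) hM (fun h => pts h.1) (even_ge hT)
    (pts_ge hT (by omega))
  have k3 := pts_sum hT
  have k4 := edge_card hT
  have k5 := hM.dim
  rw [Fintype.card_sum, Fintype.card_fin] at k5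
  rw [Fintype.card_fin, Fintype.card_fin, Fintype.card_fin] at k1
  obtain ⟨q, rfl⟩ := Nat.exists_eq_add_of_le hp
  have e1 : (5 + q) - 3 = q + 2 := by omega
  have e2 : (5 + q) - 4 = q + 1 := by omega
  have e3 : (5 + q) - 1 = q + 4 := by omega
  rw [e1, e2]
  rw [e3] at k3 k4
  nlinarith [k1, k2, k3, k4, k5, h3]

theorem surface_radon {V : Type} [Finite V] {G : SimpleGraph V} {g p : ℕ} (hp : 5 ≤ p)
    (hg : 6 * g < (p - 3) * (p - 4)) (hG : EulerGenusLE G g) {𝒞 : Set (Set V)}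
    (h𝒞 : IsConvexity G 𝒞) : Radon 𝒞 p := by
  by_contra hR
  obtain ⟨W, K, _, hKG, T, hT, hTK⟩ := DW54.main h𝒞 hR
  obtain ⟨a, b, c, M, h1, h2, h3, hm⟩ := hG
  have := genus_ge hp hT ⟨a, b, c, M, h1, h2, h3, (hTK.trans hKG).trans hm⟩
  omega

end Pool.Agent.SF49
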