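import Pool.Agent.SF49.Lin

/-!
# SF49/ModelS84: proof of `span_int`
-/

set_option autoImplicit false

namespace Pool.Agent.SF49

variable {W E U : Type}

open Classical in
/-- the unit vector of a point -/
noncomputable def dl84 (w : W) : W → ZMod 2 := fun v => if w = v then 1 else 0

/-- functions on the edges which are zero outside the internal edges -/
def intK84 (a : E → Bool → W) (B : U → Set W) : Submodule (ZMod 2) (E → ZMod 2) where
  carrier := {z | ∀ e, z e ≠ 0 → ∃ u, a e false ∈ B u ∧ a e true ∈ B u}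
  add_mem' := by
    intro z z' hz hz' e he
    by_cases h : z e = 0
    · apply hz' e
      intro h'
      exact he (by rw [Pi.add_apply, h, h', add_zero])
    · exact hz e h
  zero_mem' := by
    intro e he
    exact absurd rfl he
  smul_mem' := by
    intro c z hz e he
    apply hz e
    intro h
    exact he (by rw [Pi.smul_apply, h, smul_zero])

theorem bd_dl84 [Fintype E] (a : E → Bool → W) (e : E) :
    ∃ z : E → ZMod 2, (∀ f, z f ≠ 0 → f = e) ∧ bd a z = dl84 (a e false) + dl84 (a e true) := by
  classical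
  refine ⟨fun f => if f = e then 1 else 0, ?_, ?_⟩
  · intro f hf
    by_contra h
    exact hf (if_neg h)
  · funext v
    have h1 : bd a (fun f => if f = e then 1 else 0) v =
      ∑ f, (if f = e then (1 : ZMod 2) else 0) *
        (dl84 (a f false) v + dl84 (a f true) v) := rfl
    rw [h1, Finset.sum_eq_single e]
    · rw [if_pos rfl, one_mul]
      rfl
    · intro f _ hf
      rw [if_neg hf, zero_mul]
    · intro h
      exact absurd (Finset.mem_univ _) h

theorem span_int84 [Fintype W] [Fintype E] (a : E → Bool → W) (B : U → Set W)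
    (hB : ∀ u, ((joins a).induce (B u)).Connected) (hd : ∀ u u', u ≠ u' → Disjoint (B u) (B u'))
    [Fintype U] (y : W → ZMod 2) (h0 : ∀ w, (∀ u, w ∉ B u) → y w = 0)
    (hs : ∀ u, ∑ w, (B u).indicator y w = 0) :
    ∃ z : E → ZMod 2, bd a z = y ∧
      ∀ e, z e ≠ 0 → ∃ u, a e false ∈ B u ∧ a e true ∈ B u := by
  classical
  have hadj : ∀ u, ∀ w ∈ B u, ∀ w' ∈ B u, (joins a).Adj w w' →
      dl84 w + dl84 w' ∈ (intK84 a B).map (bd a) := by
    intro u w hw w' hw' h
    rw [joins, SimpleGraph.fromRel_adj] at h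
    obtain ⟨-, ⟨e, h1, h2⟩ | ⟨e, h1, h2⟩⟩ := h
    · obtain ⟨z, hz, hb⟩ := bd_dl84 a e
      refine ⟨z, ?_, ?_⟩
      · intro f hf
        rw [hz f hf, h1, h2]
        exact ⟨u, hw, hw'⟩
      · rw [hb, h1, h2]
    · obtain ⟨z, hz, hb⟩ := bd_dl84 a e
      refine ⟨z, ?_, ?_⟩
      · intro f hf
        rw [hz f hf, h1, h2]
        exact ⟨u, hw', hw⟩
      · rw [hb, h1, h2, add_comm]
  have hself : ∀ w : W, dl84 w + dl84 w = 0 := by
    intro w
    funext v
    exact CharTwo.add_self_eq_zero _
  have hwalk : ∀ u, ∀ x x' : B u, ((joins a).induce (B u)).Walk x x' →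
      dl84 x.1 + dl84 x'.1 ∈ (intK84 a B).map (bd a) := by
    intro u x x' p
    induction p with
    | nil =>
      rw [hself]
      exact Submodule.zero_mem _
    | @cons x1 x2 x3 h p ih =>
      have h1 := hadj u x1.1 x1.2 x2.1 x2.2 h
      have h2 := Submodule.add_mem _ h1 ih
      have h3 : dl84 x1.1 + dl84 x2.1 + (dl84 x2.1 + dl84 x3.1) = dl84 x1.1 + dl84 x3.1 := by
        have h4 := hself x2.1
        calc dl84 x1.1 + dl84 x2.1 + (dl84 x2.1 + dl84 x3.1)
            = dl84 x1.1 + (dl84 x2.1 + dl84 x2.1) + dl84 x3.1 := by abel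
          _ = dl84 x1.1 + dl84 x3.1 := by rw [h4, add_zero]
      rw [h3] at h2
      exact h2
  have hind : ∀ u, (B u).indicator y ∈ (intK84 a B).map (bd a) := by
    intro u
    obtain ⟨⟨w0, hw0⟩⟩ := (hB u).nonempty
    have h1 : (B u).indicator y = ∑ w, (B u).indicator y w • (dl84 w + dl84 w0) := by
      have h2 : ∑ w, (B u).indicator y w • (dl84 w + dl84 w0) =
          ∑ w, (B u).indicator y w • dl84 w + (∑ w, (B u).indicator y w) • dl84 w0 := by
        rw [Finset.sum_smul, ← Finset.sum_add_distrib]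
        exact Finset.sum_congr rfl fun w _ => smul_add _ _ _
      rw [h2, hs u, zero_smul, add_zero]
      funext v
      rw [Finset.sum_apply, Finset.sum_eq_single v]
      · rw [Pi.smul_apply, dl84, if_pos rfl, smul_eq_mul, mul_one]
      · intro w _ hw
        rw [Pi.smul_apply, dl84, if_neg hw, smul_zero]
      · intro h
        exact absurd (Finset.mem_univ _) h
    rw [h1]
    refine Submodule.sum_mem _ fun w _ => ?_
    by_cases hw : w ∈ B u
    · refine Submodule.smul_mem _ _ ?_
      obtain ⟨p⟩ := (hB u).preconnected ⟨w, hw⟩ ⟨w0, hw0⟩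
      exact hwalk u ⟨w, hw⟩ ⟨w0, hw0⟩ p
    · rw [Set.indicator_of_notMem hw, zero_smul]
      exact Submodule.zero_mem _
  have hy : y = ∑ u, (B u).indicator y := by
    funext w
    rw [Finset.sum_apply]
    by_cases h : ∃ u, w ∈ B u
    · obtain ⟨u, hu⟩ := h
      rw [Finset.sum_eq_single u, Set.indicator_of_mem hu]
      · intro u' _ hu'
        rw [Set.indicator_of_notMem]
        intro hw
        exact Set.disjoint_left.1 (hd u' u hu') hw hu
      · intro h
        exact absurd (Finset.mem_univ _) h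
    · push Not at h
      rw [h0 w h, Finset.sum_eq_zero]
      intro u _
      exact Set.indicator_of_notMem (h u) _
  have hfin : y ∈ (intK84 a B).map (bd a) := by
    rw [hy]
    exact Submodule.sum_mem _ fun u _ => hind u
  obtain ⟨z, hz, hb⟩ := hfin
  exact ⟨z, hb, hz⟩

end Pool.Agent.SF49
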