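import Pool.Agent.SF49.Comp
import Pool.Agent.SF49.ModelS84

/-!
# SF49/Model: the edges of a minor and spanning trees in its branch sets

`B u` the branch sets. For every edge `h = s(x, y)` of `D` choose `sel h : E` with one end in `B x` and one in `B y` (`Touch`, `joins`). Internal edges: both ends in the same `B u`. Let `A e`
be the vector `bd a (Pi.single e 1)` (sum of the two ends). `span_int`: if `y : W → ZMod 2` is zero outside the union of the `B u` and its sum over every `B u` is 0, then `y` is in the span of
the `A e`, `e` internal (for `w, w' ∈ B u` the vector `w + w'` is in the span: walk induction in `B u`). Let `tree` be a set of internal edges such that the `A e` (`e ∈ tree`) are a basis of the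
span of the `A e`, `e` internal (`exists_linearIndependent`). `N = tree ∪ range sel`. (i) `z ∈ ZN`, `z = 0` on `range sel`: a linear relation between the `A e`, `e ∈ tree`. (ii) Sum the equations
of the vertices of `B u`: internal edges count twice. (iii) The cycle space of `D` (`bd` for an orientation of the edges of `D`) has dimension at least
`card edges - card U + 1` (the sum of all `bd` coordinates is 0), and every cycle `c` of `D` is the selected part of some `z ∈ ZN`: apply `span_int` to the sum of `c h • A (sel h)`.
-/

set_option autoImplicit false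

namespace Pool.Agent.SF49

open Pool.Agent.DW54 Pool.Agent.HR54

variable {W E U : Type}

/-- What is needed of the model. -/
structure Model [Fintype E] (a : E → Bool → W) (D : SimpleGraph U) [Fintype D.edgeSet] [Fintype U]
    [DecidableEq U] (N : Set E) (sel : D.edgeSet → E) : Prop where
  inj : Function.Injective sel
  mem : ∀ h, sel h ∈ N
  acyc : ∀ z ∈ ZN a N, (∀ h, z (sel h) = 0) → z = 0
  even : ∀ z ∈ ZN a N, ∀ u : U, ∑ h : D.edgeSet, (if u ∈ h.1 then z (sel h) else 0) = 0
  dim : Fintype.card D.edgeSet + 1 ≤ Module.finrank (ZMod 2) (ZN a N) + Fintype.card U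

theorem span_int [Fintype W] [Fintype E] (a : E → Bool → W) (B : U → Set W)
    (hB : ∀ u, ((joins a).induce (B u)).Connected) (hd : ∀ u u', u ≠ u' → Disjoint (B u) (B u'))
    [Fintype U] (y : W → ZMod 2) (h0 : ∀ w, (∀ u, w ∉ B u) → y w = 0)
    (hs : ∀ u, ∑ w, (B u).indicator y w = 0) :
    ∃ z : E → ZMod 2, bd a z = y ∧
      ∀ e, z e ≠ 0 → ∃ u, a e false ∈ B u ∧ a e true ∈ B u :=
  span_int84 a B hB hd y h0 hs

open Classical in
theorem bd_single [Fintype E] (a : E → Bool → W) (e : E) (w : W) :
    bd a (Pi.single e 1) w =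
      (if a e false = w then 1 else 0) + (if a e true = w then 1 else 0) := by
  show ∑ e', (Pi.single e 1 : E → ZMod 2) e' * ((if a e' false = w then 1 else 0) +
    (if a e' true = w then 1 else 0)) = _
  rw [Finset.sum_eq_single e]
  · rw [Pi.single_eq_same, one_mul]
  · intro b _ hb
    rw [Pi.single_eq_of_ne hb, zero_mul]
  · intro h; exact absurd (Finset.mem_univ _) h

open Classical in
theorem bd_eq_sum [Fintype E] (a : E → Bool → W) (z : E → ZMod 2) :
    bd a z = ∑ e, z e • bd a (Pi.single e 1) := by
  funext w
  rw [Finset.sum_apply]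
  show ∑ e', z e' * ((if a e' false = w then 1 else 0) + (if a e' true = w then 1 else 0)) = _
  refine Finset.sum_congr rfl fun e _ => ?_
  rw [Pi.smul_apply, bd_single, smul_eq_mul]

open Classical in
theorem sum_ind [Fintype W] [Fintype E] (a : E → Bool → W) (S : Set W) (z : E → ZMod 2) :
    ∑ w, S.indicator (bd a z) w =
      ∑ e, z e * ((if a e false ∈ S then 1 else 0) + (if a e true ∈ S then 1 else 0)) := by
  have h1 : ∀ w, S.indicator (bd a z) w = ∑ e, z e * (if w ∈ S then
      ((if a e false = w then 1 else 0) + (if a e true = w then 1 else 0)) else 0) := by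
    intro w
    by_cases hw : w ∈ S
    · rw [Set.indicator_of_mem hw]
      simp only [hw, if_true]
      rfl
    · rw [Set.indicator_of_notMem hw]
      simp [hw]
  rw [Finset.sum_congr rfl fun w _ => h1 w, Finset.sum_comm]
  refine Finset.sum_congr rfl fun e _ => ?_
  rw [← Finset.mul_sum]
  congr 1
  have h2 : ∀ v : W, ∑ w, (if w ∈ S then (if v = w then (1 : ZMod 2) else 0) else 0) =
      if v ∈ S then 1 else 0 := by
    intro v
    rw [Finset.sum_eq_single v]
    · simp
    · intro b _ hb
      rw [if_neg (Ne.symm hb)]
      simp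
    · intro h; exact absurd (Finset.mem_univ _) h
  rw [← h2, ← h2, ← Finset.sum_add_distrib]
  refine Finset.sum_congr rfl fun w _ => ?_
  by_cases hw : w ∈ S <;> simp [hw]

theorem exists_model [Fintype W] [Fintype E] (a : E → Bool → W) (D : SimpleGraph U)
    [Fintype D.edgeSet] [Fintype U] [DecidableEq U] [Nonempty U]
    (h : IsMinor D (joins a)) :
    ∃ (N : Set E) (sel : D.edgeSet → E), Model a D N sel := by
  classical
  obtain ⟨B, hB, hd, ht⟩ := h
  have hsel : ∀ h : D.edgeSet, ∃ (e : E) (x y : U), h.1 = s(x, y) ∧ x ≠ y ∧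
      a e false ∈ B x ∧ a e true ∈ B y := by
    rintro ⟨h, hh⟩
    induction h using Sym2.ind with
    | _ x y =>
      have hxy : D.Adj x y := hh
      obtain ⟨v, hv, w, hw, hvw⟩ := ht x y hxy
      obtain ⟨_, ⟨e, h1, h2⟩ | ⟨e, h1, h2⟩⟩ := (SimpleGraph.fromRel_adj _ _ _).1 hvw
      · exact ⟨e, x, y, rfl, hxy.ne, h1 ▸ hv, h2 ▸ hw⟩
      · exact ⟨e, y, x, Sym2.eq_swap, hxy.ne.symm, h1 ▸ hw, h2 ▸ hv⟩
  choose sel X Y hXY hne hX hY using hsel
  have huniq : ∀ w u u', w ∈ B u → w ∈ B u' → u = u' := by
    intro w u u' h1 h2
    by_contra h3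
    exact Set.disjoint_left.1 (hd u u' h3) h1 h2
  let Int : Set E := {e | ∃ u, a e false ∈ B u ∧ a e true ∈ B u}
  obtain ⟨κ, τ, hτ, hspan, hli⟩ := exists_linearIndependent' (ZMod 2)
    (fun e : Int => bd a (Pi.single e.1 1))
  haveI : Fintype κ := Fintype.ofInjective τ hτ
  let tr : κ → E := fun k => (τ k).1
  have htr : Function.Injective tr := fun k k' hk => hτ (Subtype.ext hk)
  have hselInt : ∀ h, sel h ∉ Int := by
    rintro h ⟨u, h1, h2⟩
    exact hne h ((huniq _ _ _ (hX h) h1).trans (huniq _ _ _ (hY h) h2).symm)
  have hinj : Function.Injective sel := by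
    intro h h' hh
    have h1 : X h = X h' := huniq _ _ _ (hX h) (by rw [hh]; exact hX h')
    have h2 : Y h = Y h' := huniq _ _ _ (hY h) (by rw [hh]; exact hY h')
    exact Subtype.ext (by rw [hXY, hXY, h1, h2])
  refine ⟨Set.range tr ∪ Set.range sel, sel, ⟨hinj, fun h => Or.inr ⟨h, rfl⟩, ?_, ?_, ?_⟩⟩
  · rintro z ⟨hz, hz0⟩ hsel0
    have h1 : ∑ k, z (tr k) • bd a (Pi.single (tr k) 1) = 0 := by
      rw [← hz, bd_eq_sum a z]
      refine Fintype.sum_of_injective tr htr _ _ ?_ (fun k => rfl)
      intro e he
      by_cases he2 : e ∈ Set.range sel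
      · obtain ⟨h, rfl⟩ := he2
        rw [hsel0, zero_smul]
      · rw [hz0 e (by rintro (h | h); exacts [he h, he2 h]), zero_smul]
    have h2 := Fintype.linearIndependent_iff.1 hli (fun k => z (tr k)) h1
    funext e
    by_cases he : e ∈ Set.range tr
    · obtain ⟨k, rfl⟩ := he
      exact h2 k
    · by_cases he2 : e ∈ Set.range sel
      · obtain ⟨h, rfl⟩ := he2
        exact hsel0 h
      · exact hz0 e (by rintro (h | h); exacts [he h, he2 h])
  · rintro z ⟨hz, hz0⟩ u
    have h1 := sum_ind a (B u) z
    rw [hz] at h1
    have h2 : ∑ w, (B u).indicator (0 : W → ZMod 2) w = 0 := by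
      refine Finset.sum_eq_zero fun w _ => ?_
      simp
    rw [h2] at h1
    refine Eq.trans ?_ h1.symm
    refine Fintype.sum_of_injective sel hinj _ _ ?_ ?_
    · intro e he
      by_cases he2 : e ∈ Set.range tr
      · obtain ⟨k, rfl⟩ := he2
        obtain ⟨u', h3, h4⟩ := (τ k).2
        by_cases hu : u = u'
        · subst hu
          rw [if_pos h3, if_pos h4]
          have : (1 : ZMod 2) + 1 = 0 := by decide
          rw [this, mul_zero]
        · rw [if_neg (fun h => hu (huniq _ _ _ h h3)), if_neg (fun h => hu (huniq _ _ _ h h4)),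
            add_zero, mul_zero]
      · rw [hz0 e (by rintro (h | h); exacts [he2 h, he h]), zero_mul]
    · intro h
      by_cases hu1 : u = X h
      · have hu2 : u ≠ Y h := fun h' => hne h (hu1.symm.trans h')
        have h3 : u ∈ h.1 := by rw [hXY h, hu1]; exact Sym2.mem_mk_left _ _
        rw [if_pos h3, if_pos (hu1 ▸ hX h), if_neg (fun h' => hu2 (huniq _ _ _ h' (hY h))),
          add_zero, mul_one]
      · by_cases hu2 : u = Y h
        · have h3 : u ∈ h.1 := by rw [hXY h, hu2]; exact Sym2.mem_mk_right _ _
          rw [if_pos h3, if_neg (fun h' => hu1 (huniq _ _ _ h' (hX h))), if_pos (hu2 ▸ hY h),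
            zero_add, mul_one]
        · have h3 : u ∉ h.1 := by
            rw [hXY h, Sym2.mem_iff]
            rintro (h' | h')
            exacts [hu1 h', hu2 h']
          rw [if_neg h3, if_neg (fun h' => hu1 (huniq _ _ _ h' (hX h))),
            if_neg (fun h' => hu2 (huniq _ _ _ h' (hY h))), add_zero, mul_zero]
  · -- dimension
    let N : Set E := Set.range tr ∪ Set.range sel
    let β : (D.edgeSet → ZMod 2) →ₗ[ZMod 2] (U → ZMod 2) :=
      { toFun := fun c u => ∑ h : D.edgeSet, (if u ∈ h.1 then c h else 0)
        map_add' := by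
          intro c c'
          funext u
          simp only [Pi.add_apply]
          rw [← Finset.sum_add_distrib]
          refine Finset.sum_congr rfl fun h _ => ?_
          split_ifs <;> simp
        map_smul' := by
          intro r c
          funext u
          simp only [Pi.smul_apply, smul_eq_mul, RingHom.id_apply]
          rw [Finset.mul_sum]
          refine Finset.sum_congr rfl fun h _ => ?_
          split_ifs <;> simp }
    let σ : (U → ZMod 2) →ₗ[ZMod 2] ZMod 2 :=
      { toFun := fun y => ∑ u, y u
        map_add' := by intro y y'; simp only [Pi.add_apply, Finset.sum_add_distrib]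
        map_smul' := by intro r y; simp only [Pi.smul_apply, smul_eq_mul, RingHom.id_apply,
                          Finset.mul_sum] }
    have hσβ : LinearMap.range β ≤ LinearMap.ker σ := by
      rintro _ ⟨c, rfl⟩
      show ∑ u, ∑ h : D.edgeSet, (if u ∈ h.1 then c h else 0) = 0
      rw [Finset.sum_comm]
      refine Finset.sum_eq_zero fun h _ => ?_
      have h1 : ∀ u, (if u ∈ h.1 then c h else 0) =
          (if u = X h then c h else 0) + (if u = Y h then c h else 0) := by
        intro u
        rw [hXY h]
        by_cases hu1 : u = X h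
        · have hu2 : u ≠ Y h := fun h' => hne h (hu1.symm.trans h')
          rw [if_pos (by rw [hu1]; exact Sym2.mem_mk_left _ _), if_pos hu1, if_neg hu2, add_zero]
        · by_cases hu2 : u = Y h
          · rw [if_pos (by rw [hu2]; exact Sym2.mem_mk_right _ _), if_neg hu1, if_pos hu2,
              zero_add]
          · rw [if_neg (by rw [Sym2.mem_iff]; rintro (h' | h'); exacts [hu1 h', hu2 h']),
              if_neg hu1, if_neg hu2, add_zero]
      rw [Finset.sum_congr rfl fun u _ => h1 u, Finset.sum_add_distrib, Finset.sum_ite_eq',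
        Finset.sum_ite_eq', if_pos (Finset.mem_univ _), if_pos (Finset.mem_univ _)]
      exact CharTwo.add_self_eq_zero _
    have hσ : LinearMap.range σ = ⊤ := by
      rw [LinearMap.range_eq_top]
      intro r
      obtain ⟨u⟩ := ‹Nonempty U›
      refine ⟨Pi.single u r, ?_⟩
      show ∑ u', (Pi.single u r : U → ZMod 2) u' = r
      rw [Finset.sum_eq_single u]
      · rw [Pi.single_eq_same]
      · intro b _ hb; rw [Pi.single_eq_of_ne hb]
      · intro h; exact absurd (Finset.mem_univ _) h
    have d1 := LinearMap.finrank_range_add_finrank_ker σ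
    rw [hσ, finrank_top, Module.finrank_self, Module.finrank_fintype_fun_eq_card] at d1
    have d2 := Submodule.finrank_mono hσβ
    have d3 := LinearMap.finrank_range_add_finrank_ker β
    rw [Module.finrank_fintype_fun_eq_card] at d3
    let P : (ZN a N) →ₗ[ZMod 2] (D.edgeSet → ZMod 2) :=
      { toFun := fun z h => z.1 (sel h)
        map_add' := fun _ _ => rfl
        map_smul' := fun _ _ => rfl }
    have hP : LinearMap.ker β ≤ LinearMap.range P := by
      intro c hc
      have hc' : ∀ u, ∑ h : D.edgeSet, (if u ∈ h.1 then c h else 0) = 0 :=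
        fun u => congrFun hc u
      -- the vector of the selected edges
      let z2 : E → ZMod 2 := ∑ h, c h • (Pi.single (sel h) 1 : E → ZMod 2)
      have hz2 : ∀ e, z2 e = ∑ h, c h * (Pi.single (sel h) 1 : E → ZMod 2) e := by
        intro e
        show (∑ h, c h • (Pi.single (sel h) 1 : E → ZMod 2)) e = _
        rw [Finset.sum_apply]
        rfl
      have hz2a : ∀ h, z2 (sel h) = c h := by
        intro h
        rw [hz2, Finset.sum_eq_single h]
        · rw [Pi.single_eq_same, mul_one]
        · intro b _ hb
          rw [Pi.single_eq_of_ne (fun h' => hb (hinj h').symm), mul_zero]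
        · intro h'; exact absurd (Finset.mem_univ _) h'
      have hz2b : ∀ e, e ∉ Set.range sel → z2 e = 0 := by
        intro e he
        rw [hz2]
        refine Finset.sum_eq_zero fun h _ => ?_
        rw [Pi.single_eq_of_ne (fun h' => he ⟨h, h'.symm⟩), mul_zero]
      obtain ⟨z0, hz0, hz0i⟩ := span_int a B hB hd (bd a z2) (by
        intro w hw
        show ∑ e, z2 e * ((if a e false = w then 1 else 0) + (if a e true = w then 1 else 0)) = 0
        refine Finset.sum_eq_zero fun e _ => ?_
        by_cases he : e ∈ Set.range sel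
        · obtain ⟨h, rfl⟩ := he
          rw [if_neg (fun h' : a (sel h) false = w => hw (X h) (h' ▸ hX h)),
            if_neg (fun h' : a (sel h) true = w => hw (Y h) (h' ▸ hY h)), add_zero, mul_zero]
        · rw [hz2b e he, zero_mul]) (by
        intro u
        rw [sum_ind]
        refine Eq.trans ?_ (hc' u)
        refine (Fintype.sum_of_injective sel hinj _ _ ?_ ?_).symm
        · intro e he
          rw [hz2b e he, zero_mul]
        · intro h
          rw [hz2a]
          by_cases hu1 : u = X h
          · have hu2 : u ≠ Y h := fun h' => hne h (hu1.symm.trans h')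
            have h3 : u ∈ h.1 := by rw [hXY h, hu1]; exact Sym2.mem_mk_left _ _
            rw [if_pos h3, if_pos (hu1 ▸ hX h), if_neg (fun h' => hu2 (huniq _ _ _ h' (hY h))),
              add_zero, mul_one]
          · by_cases hu2 : u = Y h
            · have h3 : u ∈ h.1 := by rw [hXY h, hu2]; exact Sym2.mem_mk_right _ _
              rw [if_pos h3, if_neg (fun h' => hu1 (huniq _ _ _ h' (hX h))),
                if_pos (hu2 ▸ hY h), zero_add, mul_one]
            · have h3 : u ∉ h.1 := by
                rw [hXY h, Sym2.mem_iff]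
                rintro (h' | h')
                exacts [hu1 h', hu2 h']
              rw [if_neg h3, if_neg (fun h' => hu1 (huniq _ _ _ h' (hX h))),
                if_neg (fun h' => hu2 (huniq _ _ _ h' (hY h))), add_zero, mul_zero])
      have hmem : bd a z2 ∈ Submodule.span (ZMod 2)
          (Set.range ((fun e : Int => bd a (Pi.single e.1 1)) ∘ τ)) := by
        rw [hspan, ← hz0, bd_eq_sum a z0]
        refine Submodule.sum_mem _ fun e _ => ?_
        by_cases he : z0 e = 0
        · rw [he, zero_smul]; exact Submodule.zero_mem _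
        · exact Submodule.smul_mem _ _ (Submodule.subset_span ⟨⟨e, hz0i e he⟩, rfl⟩)
      obtain ⟨g, hg⟩ := (Submodule.mem_span_range_iff_exists_fun (ZMod 2)).1 hmem
      let z1 : E → ZMod 2 := ∑ k, g k • (Pi.single (tr k) 1 : E → ZMod 2)
      have hz1 : ∀ e, z1 e = ∑ k, g k * (Pi.single (tr k) 1 : E → ZMod 2) e := by
        intro e
        show (∑ k, g k • (Pi.single (tr k) 1 : E → ZMod 2)) e = _
        rw [Finset.sum_apply]
        rfl
      have hz1b : ∀ e, e ∉ Set.range tr → z1 e = 0 := by
        intro e he
        rw [hz1]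
        refine Finset.sum_eq_zero fun k _ => ?_
        rw [Pi.single_eq_of_ne (fun h' => he ⟨k, h'.symm⟩), mul_zero]
      have hbz1 : bd a z1 = bd a z2 := by
        rw [← hg]
        show bd a (∑ k, g k • (Pi.single (tr k) 1 : E → ZMod 2)) = _
        rw [map_sum]
        refine Finset.sum_congr rfl fun k _ => ?_
        rw [map_smul]
        rfl
      refine ⟨⟨z1 + z2, ?_, ?_⟩, ?_⟩
      · show bd a (z1 + z2) = 0
        rw [map_add, hbz1]
        funext w
        exact CharTwo.add_self_eq_zero _
      · intro e he
        rw [Pi.add_apply, hz1b e (fun h => he (Or.inl h)), hz2b e (fun h => he (Or.inr h)),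
          add_zero]
      · funext h
        show z1 (sel h) + z2 (sel h) = c h
        rw [hz1b (sel h) (by rintro ⟨k, hk⟩; exact hselInt h (hk ▸ (τ k).2)), hz2a, zero_add]
    have d4 := Submodule.finrank_mono hP
    have d5 := LinearMap.finrank_range_le P
    show _ + 1 ≤ Module.finrank (ZMod 2) (ZN a N) + _
    omega

end Pool.Agent.SF49
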