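import Pool.Agent.SF49.Main
import Pool.Agent.HR54.Easy

/-!
# SF49/Sharp: `K_4` on the sphere, `K_6` on the projective plane, `K_7` on the torus
-/

set_option autoImplicit false

namespace Pool.Agent.SF49

open Pool.Agent.DW54 Pool.Agent.HR54

theorem even_of_filter {a b c : ℕ} (e : Fin b → Bool → Fin a) (s : Fin b → Bool → Fin c)
    (h : ∀ v f, ((Finset.univ : Finset (Fin b × Bool × Bool)).filter
      (fun x => e x.1 x.2.1 = v ∧ s x.1 x.2.2 = f)).card % 2 = 0) (v : Fin a) (f : Fin c) :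
    Even (Nat.card {x : Fin b × Bool × Bool // e x.1 x.2.1 = v ∧ s x.1 x.2.2 = f}) := by
  rw [Nat.card_eq_fintype_card, Fintype.card_subtype]
  exact Nat.even_iff.2 (h v f)

theorem conn_of {b c : ℕ} (s : Fin b → Bool → Fin (c + 1))
    (h : ∀ f : Fin (c + 1), f ≠ 0 → ∃ e, (s e false < f ∧ s e true = f) ∨
      (s e true < f ∧ s e false = f)) : (joins s).Connected := by
  have key : ∀ n : ℕ, ∀ f : Fin (c + 1), (f : ℕ) = n → (joins s).Reachable f 0 := by
    intro n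
    induction n using Nat.strong_induction_on with
    | _ n ih =>
      intro f hf
      by_cases h0 : f = 0
      · rw [h0]
      · obtain ⟨e, ⟨h1, h2⟩ | ⟨h1, h2⟩⟩ := h f h0
        · have h3 := ih _ (hf ▸ h1) (s e false) rfl
          refine (SimpleGraph.Adj.reachable ?_).trans h3
          exact ⟨ne_of_gt h1, Or.inr ⟨e, rfl, h2⟩⟩
        · have h3 := ih _ (hf ▸ h1) (s e true) rfl
          refine (SimpleGraph.Adj.reachable ?_).trans h3
          exact ⟨ne_of_gt h1, Or.inl ⟨e, h2, rfl⟩⟩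
  haveI : Nonempty (Fin (c + 1)) := ⟨0⟩
  exact ⟨fun x y => (key _ x rfl).trans (key _ y rfl).symm⟩

theorem conn_single {V : Type} (G : SimpleGraph V) (x : V) : (G.induce ({x} : Set V)).Connected := by
  haveI : Nonempty ({x} : Set V) := ⟨⟨x, rfl⟩⟩
  refine ⟨?_⟩
  rintro ⟨a, rfl⟩ ⟨b, hb⟩
  have hb' : b = a := hb
  subst hb'
  exact SimpleGraph.Reachable.refl _

theorem minor_top {V : Type} {G : SimpleGraph V} (h : ∀ x y, x ≠ y → G.Adj x y) :
    IsMinor (⊤ : SimpleGraph V) G := by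
  refine ⟨fun x => {x}, fun x => conn_single G x, fun x y hxy => Set.disjoint_singleton.2 hxy,
    fun x y hxy => ⟨x, rfl, y, rfl, h x y hxy⟩⟩

theorem joins_all {b c : ℕ} (s : Fin b → Bool → Fin c)
    (h : ∀ x y : Fin c, x ≠ y → ∃ e, (s e false = x ∧ s e true = y) ∨
      (s e false = y ∧ s e true = x)) : ∀ x y, x ≠ y → (joins s).Adj x y := by
  intro x y hxy
  obtain ⟨e, h1 | h1⟩ := h x y hxy
  · exact ⟨hxy, Or.inl ⟨e, h1⟩⟩
  · exact ⟨hxy, Or.inr ⟨e, h1⟩⟩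

theorem genus_of {a b c g : ℕ} (e : Fin b → Bool → Fin (a + 1)) (s : Fin b → Bool → Fin (c + 1))
    (h1 : ∀ v f, ((Finset.univ : Finset (Fin b × Bool × Bool)).filter
      (fun x => e x.1 x.2.1 = v ∧ s x.1 x.2.2 = f)).card % 2 = 0)
    (h2 : ∀ f : Fin (c + 1), f ≠ 0 → ∃ e, (s e false < f ∧ s e true = f) ∨
      (s e true < f ∧ s e false = f))
    (h3 : ∀ x y : Fin (a + 1), x ≠ y → ∃ i, (e i false = x ∧ e i true = y) ∨
      (e i false = y ∧ e i true = x)) (h4 : b ≤ a + c + g) :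
    EulerGenusLE (⊤ : SimpleGraph (Fin (a + 1))) g := by
  have hj := joins_all e h3
  refine ⟨a + 1, b, c + 1, ⟨e, s, even_of_filter e s h1⟩, ?_, conn_of s h2, by omega,
    minor_top hj⟩
  haveI : Nonempty (Fin (a + 1)) := ⟨0⟩
  refine ⟨fun x y => ?_⟩
  by_cases hxy : x = y
  · rw [hxy]
  · exact (hj x y hxy).reachable

/-- the sphere -/
theorem k4 : EulerGenusLE (⊤ : SimpleGraph (Fin 4)) 0 := by
  refine genus_of (a := 3) (b := 6) (c := 3)
    (fun i t => (![![0, 1], ![0, 2], ![0, 3], ![1, 2], ![1, 3], ![2, 3]] :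
      Fin 6 → Fin 2 → Fin 4) i (if t then 1 else 0))
    (fun i t => (![![2, 3], ![1, 3], ![1, 2], ![0, 3], ![0, 2], ![0, 1]] :
      Fin 6 → Fin 2 → Fin 4) i (if t then 1 else 0)) ?_ ?_ ?_ (by norm_num)
  · decide +kernel
  · decide +kernel
  · decide +kernel

/-- the projective plane: points `0`, ..., `4` (mod `5`) and `5`, faces `{5, i, i + 1}` and `{i, i + 1, i + 3}` -/
theorem k6 : EulerGenusLE (⊤ : SimpleGraph (Fin 6)) 1 := by
  refine genus_of (a := 5) (b := 15) (c := 9)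
    (fun i t => (![![5, 0], ![5, 1], ![5, 2], ![5, 3], ![5, 4],
      ![0, 1], ![1, 2], ![2, 3], ![3, 4], ![4, 0],
      ![0, 2], ![1, 3], ![2, 4], ![3, 0], ![4, 1]] : Fin 15 → Fin 2 → Fin 6) i
        (if t then 1 else 0))
    (fun i t => (![![0, 4], ![1, 0], ![2, 1], ![3, 2], ![4, 3],
      ![0, 5], ![1, 6], ![2, 7], ![3, 8], ![4, 9],
      ![9, 7], ![5, 8], ![6, 9], ![7, 5], ![8, 6]] : Fin 15 → Fin 2 → Fin 10) i
        (if t then 1 else 0)) ?_ ?_ ?_ (by norm_num)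
  · decide +kernel
  · decide +kernel
  · decide +kernel

/-- the torus: points mod `7`, faces `{i, i + 1, i + 3}` (number `8 * i` mod `14`) and `{i, i + 2, i + 3}` (number
`8 * i + 1` mod `14`) -/
theorem k7 : EulerGenusLE (⊤ : SimpleGraph (Fin 7)) 2 := by
  refine genus_of (a := 6) (b := 21) (c := 13)
    (fun i t => ⟨(i.1 % 7 + (if t then i.1 / 7 + 1 else 0)) % 7, Nat.mod_lt _ (by norm_num)⟩)
    (fun i t => ⟨(if t then 8 * (i.1 + (if i.1 / 7 = 0 then 5 else 0)) + 1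
      else 8 * (i.1 + (if i.1 / 7 = 1 then 6 else 0))) % 14, Nat.mod_lt _ (by norm_num)⟩)
      ?_ ?_ ?_ (by norm_num)
  · decide +kernel
  · decide +kernel
  · decide +kernel

theorem top_fails (n : ℕ) [NeZero n] : ∃ 𝒞 : Set (Set (Fin n)),
    IsConvexity (⊤ : SimpleGraph (Fin n)) 𝒞 ∧ ¬ Radon 𝒞 n := by
  haveI : Nonempty (Fin n) := ⟨0⟩
  exact exists_convexity SimpleGraph.connected_top
    ⟨fun i => {i}, fun i => conn_single _ i, fun i j hij => Set.disjoint_singleton.2 hij,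
      fun i j hij => ⟨i, rfl, j, rfl, hij⟩⟩

theorem sharp : ∀ x : ℕ × ℕ, x = (4, 0) ∨ x = (6, 1) ∨ x = (7, 2) →
    EulerGenusLE (⊤ : SimpleGraph (Fin x.1)) x.2 ∧ ∃ 𝒞 : Set (Set (Fin x.1)),
      IsConvexity (⊤ : SimpleGraph (Fin x.1)) 𝒞 ∧ ¬ Radon 𝒞 x.1 := by
  rintro x (rfl | rfl | rfl)
  · exact ⟨k4, top_fails 4⟩
  · exact ⟨k6, top_fails 6⟩
  · exact ⟨k7, top_fails 7⟩

end Pool.Agent.SF49
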