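import Pool.Agent.SF49.Model

/-!
# SF49/UpperS90: every face has weight at least 6 (proof of `upper`)
-/

set_option autoImplicit false

namespace Pool.Agent.SF49.UpperS90

open Pool.Agent.DW54 Pool.Agent.HR54 Pool.Agent.SF49

theorem upper {W E F U : Type} [Fintype W] [Fintype E] [Fintype F] (M : CellMap W E F)
    (h2 : (joins M.sides).Connected) (D : SimpleGraph U) [Fintype D.edgeSet] [Fintype U]
    [DecidableEq U] {N : Set E} {sel : D.edgeSet → E} (hm : Model M.ends D N sel)
    (wt : D.edgeSet → ℕ)
    (hE : ∀ z : D.edgeSet → ZMod 2, (∀ u, ∑ h : D.edgeSet, (if u ∈ h.1 then z h else 0) = 0) →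
      (∃ h, z h ≠ 0) → 6 ≤ ∑ h, (if z h ≠ 0 then wt h else 0))
    (h3 : 3 ≤ ∑ h, wt h) :
    6 * Nat.card (off M.sides N).ConnectedComponent ≤ 2 * ∑ h, wt h := by
  classical
  haveI : Fintype (off M.sides N).ConnectedComponent := Fintype.ofFinite _
  rw [Nat.card_eq_fintype_card]
  let cc : F → (off M.sides N).ConnectedComponent := fun f =>
    (off M.sides N).connectedComponentMk f
  let x : (off M.sides N).ConnectedComponent → F → ZMod 2 := fun q f => if cc f = q then 1 else 0
  have hz : ∀ q, cob M.sides (x q) ∈ ZN M.ends N := by
    intro q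
    refine ⟨bd_cob M (x q), fun e he => ?_⟩
    have h1 : cc (M.sides e false) = cc (M.sides e true) := by
      by_cases heq : M.sides e false = M.sides e true
      · rw [heq]
      · refine SimpleGraph.ConnectedComponent.sound (SimpleGraph.Adj.reachable ?_)
        unfold off
        rw [SimpleGraph.fromRel_adj]
        exact ⟨heq, Or.inl ⟨e, he, rfl, rfl⟩⟩
    show x q (M.sides e false) + x q (M.sides e true) = 0
    simp only [x, h1]
    split_ifs
    · decide
    · exact add_zero _
  let c : (off M.sides N).ConnectedComponent → D.edgeSet → ℕ := fun q h =>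
    (if cc (M.sides (sel h) false) = q then 1 else 0) +
      (if cc (M.sides (sel h) true) = q then 1 else 0)
  have hw : ∀ q, 6 ≤ ∑ h, wt h * c q h := by
    intro q
    by_cases hex : ∃ h, cob M.sides (x q) (sel h) ≠ 0
    · have h6 := hE (fun h => cob M.sides (x q) (sel h)) (hm.even _ (hz q)) hex
      refine h6.trans (Finset.sum_le_sum fun h _ => ?_)
      by_cases h0 : cob M.sides (x q) (sel h) ≠ 0
      · rw [if_pos h0]
        have hc1 : 1 ≤ c q h := by
          by_contra hc
          have hc0 : c q h = 0 := by omega
          apply h0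
          show x q (M.sides (sel h) false) + x q (M.sides (sel h) true) = 0
          simp only [c] at hc0
          simp only [x]
          by_cases ha : cc (M.sides (sel h) false) = q
          · rw [if_pos ha] at hc0
            omega
          · by_cases hb : cc (M.sides (sel h) true) = q
            · rw [if_pos hb] at hc0
              omega
            · rw [if_neg ha, if_neg hb, add_zero]
        exact Nat.le_mul_of_pos_right _ hc1
      · rw [if_neg h0]
        exact Nat.zero_le _
    · push Not at hex
      have h0 := hm.acyc _ (hz q) hex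
      have hconst := cob_const h2 h0
      obtain ⟨f0, hf0⟩ := q.exists_rep
      have hall : ∀ f, cc f = q := by
        intro f
        have h4 := hconst f f0
        simp only [x] at h4
        rw [if_pos (show cc f0 = q from hf0)] at h4
        by_contra hne
        rw [if_neg hne] at h4
        exact zero_ne_one h4
      have h5 : ∀ h, c q h = 2 := fun h => by
        simp only [c]
        rw [if_pos (hall _), if_pos (hall _)]
      calc 6 ≤ 2 * ∑ h, wt h := by omega
        _ = ∑ h, wt h * c q h := by
          rw [Finset.mul_sum]
          exact Finset.sum_congr rfl fun h _ => by rw [h5, mul_comm]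
  have hsum : ∑ q, ∑ h, wt h * c q h = 2 * ∑ h, wt h := by
    rw [Finset.sum_comm, Finset.mul_sum]
    refine Finset.sum_congr rfl fun h _ => ?_
    rw [← Finset.mul_sum]
    simp only [c, Finset.sum_add_distrib, Finset.sum_ite_eq, Finset.mem_univ, if_true]
    ring
  calc 6 * Fintype.card (off M.sides N).ConnectedComponent
      = ∑ _q : (off M.sides N).ConnectedComponent, 6 := by
        rw [Finset.sum_const, Finset.card_univ, smul_eq_mul, mul_comm]
    _ ≤ ∑ q, ∑ h, wt h * c q h := Finset.sum_le_sum fun q _ => hw q
    _ = 2 * ∑ h, wt h := hsum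

end Pool.Agent.SF49.UpperS90
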