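import Pool.Agent.SF49.Model
import Pool.Agent.SF49.UpperS90

/-!
# SF49/Upper: every face has weight at least 6

For a component `q` of `off` let `x` be its indicator, `z = cob sides x`; `z ∈ ZN` (`bd_cob`; the sides of an edge outside `N` are in the same component). If `z (sel h) ≠ 0` for some `h`, then
`hE` (with `Model.even`) gives 6 from the edges with exactly one side in `q`. Otherwise `z = 0` (`Model.acyc`), `x` is constant (`cob_const`), so all sides are in `q` and the weight is
`2 * ∑ wt`. The sum over `q` of the weights is `2 * ∑ wt` (every edge has two sides).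
-/

set_option autoImplicit false

namespace Pool.Agent.SF49

open Pool.Agent.DW54 Pool.Agent.HR54

theorem upper {W E F U : Type} [Fintype W] [Fintype E] [Fintype F] (M : CellMap W E F)
    (h2 : (joins M.sides).Connected) (D : SimpleGraph U) [Fintype D.edgeSet] [Fintype U]
    [DecidableEq U] {N : Set E} {sel : D.edgeSet → E} (hm : Model M.ends D N sel)
    (wt : D.edgeSet → ℕ)
    (hE : ∀ z : D.edgeSet → ZMod 2, (∀ u, ∑ h : D.edgeSet, (if u ∈ h.1 then z h else 0) = 0) →
      (∃ h, z h ≠ 0) → 6 ≤ ∑ h, (if z h ≠ 0 then wt h else 0))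
    (h3 : 3 ≤ ∑ h, wt h) :
    6 * Nat.card (off M.sides N).ConnectedComponent ≤ 2 * ∑ h, wt h :=
  UpperS90.upper M h2 D hm wt hE h3

end Pool.Agent.SF49
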